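import Pool.Agent.Helper97.KB.Stm
import Pool.Graph.R_pool_sql_team_seeded_3997aac3.Q17.DC.All2

/-!
The characters of a central quotient in a block are in one block of the quotient.
-/

set_option autoImplicit false
set_option linter.style.haveILetI false
set_option linter.unusedSectionVars false

open scoped BigOperators Classical
open Pool.Agent.Helper884 Pool.Agent.H254R3.IN Pool.Agent.N20 Pool.Agent.Helper97.KB

noncomputable section

namespace Pool.Agent.Helper93.KB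

/-- a quotient of powers of `p` in the valuation ring -/
lemma pow_le_of_div_mem {O : ValuationSubring ℂ} {p : ℕ} [hp : Fact p.Prime]
    (hpO : (p : ℂ) ∈ O.nonunits) {a c : ℕ} (h : (p : ℂ) ^ a / (p : ℂ) ^ c ∈ O) : c ≤ a := by
  by_contra hca
  push Not at hca
  obtain ⟨t, rfl⟩ := Nat.exists_eq_add_of_lt hca
  have hp0 : (p : ℂ) ≠ 0 := by exact_mod_cast hp.out.ne_zero
  have h1 : ((p : ℂ))⁻¹ ∈ O := by
    have h2 : ((p : ℂ))⁻¹ = (p : ℂ) ^ a / (p : ℂ) ^ (a + t + 1) * (p : ℂ) ^ t := by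
      field_simp
      ring
    rw [h2]
    exact O.mul_mem _ _ h (pow_mem (natCast_mem' p) t)
  have h3 : red O (p : ℂ) ≠ 0 := red_ne_zero_of_mul (natCast_mem' p) h1 (mul_inv_cancel₀ hp0)
  exact h3 (red_eq_zero hpO)

/-- nonvanishing of the restricted inner product -/
lemma B_ne_of_sr {G : Type} [Group G] [Fintype G] {O : ValuationSubring ℂ} {p : ℕ}
    {χ ψ : G → ℂ} (hχ : IsIrr χ) (hψ : IsIrr ψ) (h : sr p O χ ψ ≠ 0) :
    IC.B (cut p χ) ψ ≠ 0 := by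
  intro h0
  have h1 := card_mul_B (p := p) (⊤ : Subgroup G) hχ (ψ := ψ) (fun g y => hψ.conj g y)
  rw [h0, mul_zero] at h1
  have h2 := (mul_eq_zero.mp h1.symm).resolve_left (uu_ne hχ)
  apply h
  rw [← red_SS hχ hψ, h2, red_zero]

theorem dom (hQ : S_Quo) : S_Dom := by
  intro H _ _ p _ O hpO Z _ hZc hZp b hb D' hD' ψ₁ hψ₁ hψ₁b
  obtain ⟨q1, q2, q3, q4⟩ := hQ H p Z hZc hZp
  haveI : Fintype (H ⧸ Z) := Fintype.ofFinite _
  set B' : Set (H ⧸ Z → ℂ) := {χ | IsIrr χ ∧ ∀ x, omega χ x - omega ψ₁ x ∈ O.nonunits} with hB'def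
  have hB' : IsBlock O B' := ⟨ψ₁, hψ₁, rfl⟩
  have hmem₁ : ψ₁ ∈ B' := by
    refine ⟨hψ₁, fun x => ?_⟩
    rw [sub_self, ValuationSubring.mem_nonunits_iff_or]
    exact Or.inl rfl
  obtain ⟨D₁, hD₁⟩ := (Pool.Agent.Q17.DC.s_mmx (H ⧸ Z) p O hpO B' hB').1
  obtain ⟨ψ₀, hψ₀, hne⟩ := exists_uu_ne hpO hB' hD₁
  have hψ₀i := hB'.irr ψ₀ hψ₀
  have hsr₁ : sr p O ψ₁ ψ₀ ≠ 0 := by
    rw [sr_eq hpO hB' hD₁ hmem₁ hψ₀]
    exact mul_ne_zero hne (cc_ne hpO hB' hD₁ hmem₁)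
  have hB₁ : IC.B (cut p ψ₁) ψ₀ ≠ 0 := B_ne_of_sr hψ₁ hψ₀i hsr₁
  have hψ₀b : (fun h : H => ψ₀ (h : H ⧸ Z)) ∈ b := by
    by_contra hcon
    apply hB₁
    rw [q4 _ ψ₁ ψ₀]
    have h1 := blk_orth hpO hb hψ₁b (q1 ψ₀ hψ₀i) hcon
    rw [h1, mul_zero]
  refine ⟨B', D₁, hB', hD₁, ?_, ?_⟩
  · -- the orders of the defect groups
    obtain ⟨a, ha⟩ := IsPGroup.iff_card.mp (N20.defect_pgroup hD')
    obtain ⟨z, hz⟩ := IsPGroup.iff_card.mp hZp
    obtain ⟨c, hc⟩ := IsPGroup.iff_card.mp (N20.defect_pgroup hD₁)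
    have hu := N20.uu_mem hpO hb hD' hψ₀b
    obtain ⟨-, hinv, hne0⟩ := inv_mem_of_red_ne hne
    have hcard : Nat.card H = Nat.card (H ⧸ Z) * Nat.card Z :=
      Subgroup.card_eq_card_quotient_mul_card_subgroup Z
    have hH0 : (Nat.card H : ℂ) ≠ 0 := by exact_mod_cast Nat.card_pos.ne'
    have hQ0 : (Nat.card (H ⧸ Z) : ℂ) ≠ 0 := by exact_mod_cast Nat.card_pos.ne'
    have hZ0 : (Nat.card Z : ℂ) ≠ 0 := by exact_mod_cast Nat.card_pos.ne'
    have hD0 : (Nat.card D₁ : ℂ) ≠ 0 := by exact_mod_cast Nat.card_pos.ne'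
    have hone := hψ₀i.one_ne
    have hkey : (p : ℂ) ^ a / (p : ℂ) ^ (z + c) ∈ O := by
      have h1 : (p : ℂ) ^ a / (p : ℂ) ^ (z + c) =
          uu D' (fun h : H => ψ₀ (h : H ⧸ Z)) * (uu D₁ ψ₀)⁻¹ := by
        have e1 : (p : ℂ) ^ a = (Nat.card D' : ℂ) := by rw [ha]; push_cast; rfl
        have e2 : (p : ℂ) ^ (z + c) = (Nat.card Z : ℂ) * (Nat.card D₁ : ℂ) := by
          rw [hz, hc, pow_add]; push_cast; rfl
        rw [e1, e2]
        unfold uu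
        have h2 : ((((1 : H) : H ⧸ Z))) = 1 := rfl
        rw [hcard]
        simp only [h2]
        push_cast
        field_simp
      rw [h1]
      exact O.mul_mem _ _ hu hinv
    have hle := pow_le_of_div_mem hpO hkey
    rw [ha, hz, hc, ← pow_add]
    exact Nat.pow_le_pow_right (Fact.out : p.Prime).pos hle
  · intro ψ hψ hψb
    by_contra hcon
    have hsr : sr p O ψ ψ₀ = sr p O ψ₁ ψ₀ := by
      unfold sr
      refine Finset.sum_congr rfl fun K _ => ?_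
      by_cases hK : p ∣ orderOf (rep K)
      · rw [if_pos hK, if_pos hK]
      · rw [if_neg hK, if_neg hK]
        obtain ⟨x, hx, hxo⟩ := q3 (rep K) hK
        rw [← hx, ← q2 ψ x hxo, ← q2 ψ₁ x hxo, hb.red_eq hψb hψ₁b]
    have h1 : IC.B (cut p ψ) ψ₀ ≠ 0 := B_ne_of_sr hψ hψ₀i (by rw [hsr]; exact hsr₁)
    apply h1
    rw [B_cut_comm]
    exact blk_orth hpO hB' hψ₀ hψ hcon

end Pool.Agent.Helper93.KB
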